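import Pool.Agent.H329R3.NU.Stmts
import Pool.Agent.H555R3.PMOuter

open MeasureTheory Set Filter Topology

namespace Pool.Agent.H759R4.NU

open Pool.Agent.H329R3.PM Pool.Agent.H329R3.NU Pool.Agent.H555R3.PMOuter

theorem taskOuterU : TaskOuterU := by
  intro B
  refine ⟨∫ y in Ioc (0 : ℝ) 1, B * (5 + (1 - y) ^ (-(1/2) : ℝ)), fun w hw hB r hr => ?_⟩
  have hB0 : 0 ≤ B := le_trans (hw.nonneg 0) (hB 0)
  have hr0 : 0 < r := by linarith
  have hgi : IntegrableOn (fun y : ℝ => B * (5 + (1 - y) ^ (-(1/2) : ℝ)) / r) (Ioc (0 : ℝ) 1) := by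
    refine Integrable.div_const (Integrable.const_mul ?_ B) r
    exact (integrableOn_const (by simp)).add int_aux
  have hne : ∀ᵐ y : ℝ ∂(volume.restrict (Ioc (0 : ℝ) 1)), y ≠ 1 := by
    refine ae_restrict_of_ae ?_
    rw [ae_iff]
    simp
  have hbd : ∀ᵐ y : ℝ ∂(volume.restrict (Ioc (0 : ℝ) 1)),
      ‖kk r y * w y‖ ≤ B * (5 + (1 - y) ^ (-(1/2) : ℝ)) / r := by
    filter_upwards [hne, ae_restrict_mem measurableSet_Ioc] with y hy1 hy
    have hlt : y < 1 := lt_of_le_of_ne hy.2 hy1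
    have hk := kap_bound hr hy.1 hlt
    have hp : 0 ≤ (1 - y) ^ (-(1/2) : ℝ) := Real.rpow_nonneg (by linarith) _
    unfold kk
    rw [Real.norm_eq_abs, abs_mul, abs_div, abs_mul, abs_of_pos hy.1, abs_of_nonneg (hw.nonneg y),
      abs_of_pos (by positivity : 0 < r ^ 3)]
    have h1 : y * |kap r y| / r ^ 3 ≤ (5 + (1 - y) ^ (-(1/2) : ℝ)) / r := by
      rw [div_le_div_iff₀ (by positivity) hr0]
      have h2 : y * |kap r y| ≤ 1 * (r * (5 + (1 - y) ^ (-(1/2) : ℝ))) :=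
        mul_le_mul hlt.le hk (abs_nonneg _) zero_le_one
      have h3 : r ≤ r ^ 2 := by nlinarith
      have h5 : 0 ≤ 5 + (1 - y) ^ (-(1/2) : ℝ) := by linarith
      calc y * |kap r y| * r ≤ 1 * (r * (5 + (1 - y) ^ (-(1/2) : ℝ))) * r := by gcongr
        _ = (5 + (1 - y) ^ (-(1/2) : ℝ)) * (r ^ 2 * 1) := by ring
        _ ≤ (5 + (1 - y) ^ (-(1/2) : ℝ)) * (r ^ 2 * r) := by gcongr
        _ = _ := by ring
    calc y * |kap r y| / r ^ 3 * w y ≤ (5 + (1 - y) ^ (-(1/2) : ℝ)) / r * B :=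
          mul_le_mul h1 (hB y) (hw.nonneg y) (by positivity)
      _ = _ := by ring
  have hmain := norm_integral_le_of_norm_le hgi hbd
  rw [integral_div, Real.norm_eq_abs] at hmain
  have : |Sop kk w r| ≤ (∫ y in Ioc (0 : ℝ) 1, B * (5 + (1 - y) ^ (-(1/2) : ℝ))) / r := hmain
  rwa [le_div_iff₀ hr0] at this

end Pool.Agent.H759R4.NU
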